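import Pool.Agent.H.MP_374efc_lc.Base

/-!
# MP_374efc_lc: junction types

`cj O x` is the number of pairs of adjacent letters of `x` with the property `O`.  If the system satisfies
a formula with at least two factors and the images of all letters are products of words of the system, then
every type of adjacent letters which occurs in some word of the system occurs at a junction of the formula
(`type_occurs`).
-/

set_option autoImplicit false

namespace D0L.Nif

variable {α β : Type}

/-- The indicator of the property `O` of a pair of optional letters. -/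
noncomputable def dl (O : α → α → Prop) : Option α → Option α → ℕ
  | some a, some b => by classical exact if O a b then 1 else 0
  | _, _ => 0

theorem dl_some (O : α → α → Prop) (a b : α) [Decidable (O a b)] :
    dl O (some a) (some b) = if O a b then 1 else 0 := by
  unfold dl
  by_cases h : O a b
  · simp [h]
  · simp [h]

theorem dl_none_right (O : α → α → Prop) (x : Option α) : dl O x none = 0 := by
  cases x <;> rfl

theorem dl_none_left (O : α → α → Prop) (x : Option α) : dl O none x = 0 := rfl

/-- The number of adjacent pairs with the property `O`. -/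
noncomputable def cj (O : α → α → Prop) : List α → ℕ
  | [] => 0
  | a :: t => dl O (some a) t.head? + cj O t

theorem cj_nil (O : α → α → Prop) : cj O [] = 0 := rfl

theorem cj_cons (O : α → α → Prop) (a : α) (t : List α) :
    cj O (a :: t) = dl O (some a) t.head? + cj O t := rfl

theorem cj_append (O : α → α → Prop) (x y : List α) :
    cj O (x ++ y) = cj O x + cj O y + dl O x.getLast? y.head? := by
  induction x with
  | nil => simp [cj_nil, dl_none_left]
  | cons a x ih =>
    cases x with
    | nil =>
      rw [List.singleton_append, cj_cons, cj_cons, cj_nil, List.head?_nil, dl_none_right]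
      simp [Nat.add_comm]
    | cons b x =>
      rw [List.cons_append, cj_cons, ih, cj_cons (t := b :: x)]
      have h1 : (b :: x ++ y).head? = (b :: x).head? := rfl
      have h2 : (a :: b :: x).getLast? = (b :: x).getLast? := by simp
      rw [h1, h2]
      omega

/-- If some adjacent pair has the property, the number is positive. -/
theorem not_of_cj {O : α → α → Prop} {x : List α} (h : cj O x = 0) {a b : α}
    (hab : [a, b] <:+: x) : ¬ O a b := by
  classical
  obtain ⟨s, t, rfl⟩ := hab
  rw [cj_append, cj_append] at h
  have h1 : cj O [a, b] = 0 := by omega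
  rw [cj_cons, List.head?_cons, dl_some] at h1
  intro h2
  rw [if_pos h2] at h1
  omega

/-- If the number is positive, some adjacent pair has the property. -/
theorem exists_of_cj {O : α → α → Prop} {x : List α} (h : cj O x ≠ 0) :
    ∃ a b, [a, b] <:+: x ∧ O a b := by
  classical
  induction x with
  | nil => exact absurd (cj_nil O) h
  | cons a x ih =>
    by_cases h1 : cj O x = 0
    · cases x with
      | nil =>
        exact absurd (by rw [cj_cons, List.head?_nil, dl_none_right, h1]) h
      | cons b x =>
        rw [cj_cons, h1, List.head?_cons, dl_some] at h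
        by_cases h2 : O a b
        · exact ⟨a, b, ⟨[], x, by simp⟩, h2⟩
        · exact absurd (by rw [if_neg h2]) h
    · obtain ⟨c, d, ⟨s, t, hst⟩, hO⟩ := ih h1
      exact ⟨c, d, ⟨a :: s, t, by simp [← hst]⟩, hO⟩

/-- The number for a product of words. -/
theorem cj_app {O : α → α → Prop} {O' : β → β → Prop} {f : β → List α}
    (hf : ∀ i, f i ≠ []) (hO : ∀ i j, dl O (f i).getLast? (f j).head? = dl O' (some i) (some j))
    (y : List β) : cj O (app f y) = cj O' y + (y.map fun i => cj O (f i)).sum := by
  induction y with
  | nil => simp [app_nil, cj_nil]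
  | cons a y ih =>
    rw [app_cons, cj_append, ih, cj_cons, List.map_cons, List.sum_cons]
    have h1 : dl O (f a).getLast? (app f y).head? = dl O' (some a) y.head? := by
      cases y with
      | nil => rw [app_nil, List.head?_nil, List.head?_nil, dl_none_right, dl_none_right]
      | cons b y =>
        have h2 : (app f (b :: y)).head? = (f b).head? := by
          obtain ⟨c, s, hc⟩ := List.exists_cons_of_ne_nil (hf b)
          rw [app_cons, hc]
          rfl
        rw [h2, List.head?_cons]
        exact hO a b
    rw [h1]
    omega

/-! ### The relation of the weights -/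

/-- The weight of a word. -/
def wt (l : α → ℚ) (x : List α) : ℚ := (x.map l).sum

theorem wt_nil (l : α → ℚ) : wt l [] = 0 := by simp [wt]

theorem wt_cons (l : α → ℚ) (a : α) (x : List α) : wt l (a :: x) = l a + wt l x := by simp [wt]

theorem wt_append (l : α → ℚ) (x y : List α) : wt l (x ++ y) = wt l x + wt l y := by simp [wt]

theorem wt_app (l : α → ℚ) (f : β → List α) (y : List β) :
    wt l (app f y) = wt (fun b => wt l (f b)) y := by
  induction y with
  | nil => rw [app_nil, wt_nil, wt_nil]
  | cons b y ih => rw [app_cons, wt_append, wt_cons, ih]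

theorem wt_const (c : ℚ) (y : List β) : wt (fun _ => c) y = y.length * c := by
  induction y with
  | nil => simp [wt_nil]
  | cons b y ih =>
    rw [wt_cons, ih, List.length_cons]
    push_cast
    ring

theorem wt_sub (l l' : α → ℚ) (x : List α) : wt (fun a => l a - l' a) x = wt l x - wt l' x := by
  induction x with
  | nil => simp [wt_nil]
  | cons b y ih =>
    rw [wt_cons, ih, wt_cons, wt_cons]
    ring

theorem wt_cast (g : α → ℕ) (x : List α) :
    (((x.map g).sum : ℕ) : ℚ) = wt (fun a => (g a : ℚ)) x := by
  induction x with
  | nil => simp [wt_nil]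
  | cons a x ih =>
    rw [List.map_cons, List.sum_cons, wt_cons, ← ih]
    push_cast
    ring

/-- The linear map `l ↦ l ∘ h - l`. -/
def dmap (h : α → List α) : (α → ℚ) →ₗ[ℚ] (α → ℚ) where
  toFun l := fun a => wt l (h a) - l a
  map_add' l l' := by
    funext a
    have h1 : ∀ x : List α, wt (l + l') x = wt l x + wt l' x := by
      intro x
      induction x with
      | nil => simp [wt_nil]
      | cons b y ih =>
        rw [wt_cons, wt_cons, wt_cons, ih, Pi.add_apply]
        ring
    change wt (l + l') (h a) - (l + l') a = (wt l (h a) - l a) + (wt l' (h a) - l' a)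
    rw [h1, Pi.add_apply]
    ring
  map_smul' c l := by
    funext a
    have h1 : ∀ x : List α, wt (c • l) x = c * wt l x := by
      intro x
      induction x with
      | nil => simp [wt_nil]
      | cons b y ih =>
        rw [wt_cons, wt_cons, ih, Pi.smul_apply, smul_eq_mul]
        ring
    change wt (c • l) (h a) - (c • l) a = c • (wt l (h a) - l a)
    rw [h1, Pi.smul_apply, smul_eq_mul, smul_eq_mul]
    ring

/-- The data: words `x i`, `i` in an alphabet `β`, with the same value of all functions invariant under the morphism
(in the application they are images of one word), a formula `R` for one more such word, and products of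
words which are images of the letters. -/
structure Dat (h : α → List α) (f : β → List α) (b0 : List α) (N K : ℕ) (R : List β)
    (P : α → List β) : Prop where
  ne : ∀ a, h a ≠ []
  fne : ∀ i, f i ≠ []
  tok : ∀ i, ∃ k, f i = it h k b0
  rel : app f R = it h N b0
  two : 2 ≤ R.length
  tk : ∀ a, app f (P a) = it h K [a]

variable {h : α → List α} {f : β → List α} {b0 : List α} {N K : ℕ} {R : List β} {P : α → List β}

theorem wt_it {l : α → ℚ} (hl : ∀ a, wt l (h a) = l a) (k : ℕ) (x : List α) :
    wt l (it h k x) = wt l x := by
  induction k generalizing x with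
  | zero => rfl
  | succ k ih =>
    rw [it_succ', ih, wt_app]
    exact congrArg (fun l => wt l x) (funext hl)

theorem Dat.dmap_inj (D : Dat h f b0 N K R P) : Function.Injective (dmap h) := by
  rw [injective_iff_map_eq_zero]
  intro l hl
  have h1 : ∀ a, wt l (h a) = l a := by
    intro a
    have h2 := congrFun hl a
    change wt l (h a) - l a = 0 at h2
    linarith
  have h3 : ∀ i, wt l (f i) = wt l b0 := by
    intro i
    obtain ⟨k, hk⟩ := D.tok i
    rw [hk, wt_it h1]
  have h4 : ∀ y, wt l (app f y) = y.length * wt l b0 := by
    intro y
    rw [wt_app, ← wt_const]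
    exact congrArg (fun l => wt l y) (funext h3)
  have h5 : wt l b0 = 0 := by
    have h6 := h4 R
    rw [D.rel, wt_it h1] at h6
    have h7 : (2 : ℚ) ≤ R.length := by exact_mod_cast D.two
    have h8 : ((R.length : ℚ) - 1) * wt l b0 = 0 := by linarith
    rcases mul_eq_zero.1 h8 with h9 | h9
    · linarith
    · exact h9
  funext a
  have h6 := h4 (P a)
  rw [D.tk, wt_it h1, h5, mul_zero, wt_cons, wt_nil, add_zero] at h6
  exact h6

/-- A type which does not occur at the junctions of `R` does not occur at all. -/
theorem Dat.no_type [Finite α] (D : Dat h f b0 N K R P) {O : α → α → Prop}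
    (hO : ∀ a b, dl O (h a).getLast? (h b).head? = dl O (some a) (some b))
    {O' : β → β → Prop} (hO' : ∀ i j, dl O (f i).getLast? (f j).head? = dl O' (some i) (some j))
    (hR : cj O' R = 0) (k : ℕ) : cj O (it h k b0) = 0 := by
  have _ := Fintype.ofFinite α
  have hs : Function.Surjective (dmap h) := LinearMap.injective_iff_surjective.1 D.dmap_inj
  obtain ⟨l, hl⟩ := hs (fun a => -(cj O (h a) : ℚ))
  have h1 : ∀ a, wt l (h a) = l a - cj O (h a) := by
    intro a
    have h2 := congrFun hl a
    change wt l (h a) - l a = -(cj O (h a) : ℚ) at h2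
    linarith
  obtain ⟨om, hom⟩ : ∃ om : List α → ℚ, ∀ x, om x = cj O x + wt l x := ⟨_, fun _ => rfl⟩
  have h2 : ∀ x, om (app h x) = om x := by
    intro x
    rw [hom, hom, cj_app D.ne hO, wt_app]
    have h3 : wt (fun b => wt l (h b)) x = wt l x - wt (fun a => (cj O (h a) : ℚ)) x := by
      rw [← wt_sub]
      exact congrArg (fun l => wt l x) (funext h1)
    rw [h3, Nat.cast_add, wt_cast]
    ring
  have h2' : ∀ k x, om (it h k x) = om x := by
    intro k
    induction k with
    | zero => intro x; rfl
    | succ k ih => intro x; rw [it_succ, h2, ih]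
  have h3 : ∀ i, om (f i) = om b0 := by
    intro i
    obtain ⟨k, hk⟩ := D.tok i
    rw [hk, h2']
  have h4 : ∀ y, om (app f y) = y.length * om b0 + cj O' y := by
    intro y
    rw [hom, cj_app D.fne hO', wt_app, Nat.cast_add, wt_cast, ← wt_const]
    have h5 : wt (fun _ => om b0) y = wt (fun i => (cj O (f i) : ℚ)) y + wt (fun i => wt l (f i)) y := by
      have h6 : (fun _ : β => om b0) = fun i => (cj O (f i) : ℚ) + wt l (f i) := by
        funext i
        rw [← h3 i, hom]
      rw [h6]
      induction y with
      | nil => simp [wt_nil]
      | cons b y ih =>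
        rw [wt_cons, wt_cons, wt_cons, ih]
        ring
    rw [h5]
    ring
  have h5 : om b0 = 0 := by
    have h6 := h4 R
    rw [D.rel, h2', hR, Nat.cast_zero, add_zero] at h6
    have h7 : (2 : ℚ) ≤ R.length := by exact_mod_cast D.two
    have h8 : ((R.length : ℚ) - 1) * om b0 = 0 := by linarith
    rcases mul_eq_zero.1 h8 with h9 | h9
    · linarith
    · exact h9
  have h6 : ∀ a, 0 ≤ l a := by
    intro a
    have h7 := h4 (P a)
    rw [D.tk, h2', h5, mul_zero, zero_add, hom, wt_cons, wt_nil, add_zero, cj_cons, cj_nil,
      List.head?_nil, dl_none_right, Nat.cast_zero, zero_add] at h7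
    rw [h7]
    exact Nat.cast_nonneg _
  have h7 : ∀ x, 0 ≤ wt l x := by
    intro x
    induction x with
    | nil => rw [wt_nil]
    | cons a x ih => rw [wt_cons]; exact add_nonneg (h6 a) ih
  have h8 : om (it h k b0) = 0 := by rw [h2', h5]
  rw [hom] at h8
  have h9 := h7 (it h k b0)
  have h10 : (0 : ℚ) ≤ cj O (it h k b0) := Nat.cast_nonneg _
  have h11 : (cj O (it h k b0) : ℚ) = 0 := by linarith
  exact_mod_cast h11

/-! ### First and last letters -/

theorem head_app {g : β → List α} (hg : ∀ b, g b ≠ []) {x y : List β} (h : x.head? = y.head?) :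
    (app g x).head? = (app g y).head? := by
  cases x with
  | nil =>
    cases y with
    | nil => rfl
    | cons b y => simp at h
  | cons a x =>
    cases y with
    | nil => simp at h
    | cons b y =>
      rw [List.head?_cons, List.head?_cons, Option.some.injEq] at h
      subst h
      obtain ⟨c, s, hc⟩ := List.exists_cons_of_ne_nil (hg a)
      rw [app_cons, app_cons, hc]
      rfl

theorem head_it (hne : ∀ a, h a ≠ []) {x y : List α} (hxy : x.head? = y.head?) (k : ℕ) :
    (it h k x).head? = (it h k y).head? := by
  induction k with
  | zero => exact hxy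
  | succ k ih => rw [it_succ, it_succ]; exact head_app hne ih

theorem last_app {g : β → List α} (hg : ∀ b, g b ≠ []) {x y : List β}
    (h : x.getLast? = y.getLast?) : (app g x).getLast? = (app g y).getLast? := by
  rcases List.eq_nil_or_concat x with rfl | ⟨x, a, rfl⟩
  · rcases List.eq_nil_or_concat y with rfl | ⟨y, b, rfl⟩
    · rfl
    · simp at h
  · rcases List.eq_nil_or_concat y with rfl | ⟨y, b, rfl⟩
    · simp at h
    · rw [List.concat_eq_append, List.concat_eq_append] at h ⊢
      rw [List.getLast?_append, List.getLast?_append] at h
      simp only [List.getLast?_singleton, Option.some_or, Option.some.injEq] at h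
      subst h
      rcases List.eq_nil_or_concat (g a) with h1 | ⟨s, c, hc⟩
      · exact absurd h1 (hg a)
      · rw [app_append, app_append, app_singleton, hc, List.concat_eq_append]
        simp [List.getLast?_append]

theorem last_it (hne : ∀ a, h a ≠ []) {x y : List α} (hxy : x.getLast? = y.getLast?) (k : ℕ) :
    (it h k x).getLast? = (it h k y).getLast? := by
  induction k with
  | zero => exact hxy
  | succ k ih => rw [it_succ, it_succ]; exact last_app hne ih

/-- **Types.** Every pair of adjacent letters of a word of the system occurs, up to the morphism, at a junction of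
the formula. -/
theorem Dat.type_occurs [Finite α] (D : Dat h f b0 N K R P) {k : ℕ} {a b : α}
    (hab : [a, b] <:+: it h k b0) :
    ∃ i j p q, [i, j] <:+: R ∧ (it h p (f i)).getLast? = (it h q [a]).getLast? ∧
      (it h p (f j)).head? = (it h q [b]).head? := by
  classical
  obtain ⟨O, hO⟩ : ∃ O : Option α → Option α → Prop, ∀ x y, O x y ↔
      ∃ p q, (it h p x.toList).getLast? = (it h q [a]).getLast? ∧
        (it h p y.toList).head? = (it h q [b]).head? := ⟨_, fun _ _ => Iff.rfl⟩
  have hlt : ∀ x : List α, x.getLast?.toList.getLast? = x.getLast? := by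
    intro x
    cases x.getLast? <;> rfl
  have hht : ∀ x : List α, x.head?.toList.head? = x.head? := by
    intro x
    cases x.head? <;> rfl
  have hinv : ∀ x y : List α, O (app h x).getLast? (app h y).head? ↔ O x.getLast? y.head? := by
    intro x y
    rw [hO, hO]
    constructor
    · rintro ⟨p, q, h1, h2⟩
      refine ⟨p + 1, q, ?_, ?_⟩
      · rw [last_it D.ne (hlt _), ← h1, last_it D.ne (hlt _), it_succ']
      · rw [head_it D.ne (hht _), ← h2, head_it D.ne (hht _), it_succ']
    · rintro ⟨p, q, h1, h2⟩
      refine ⟨p, q + 1, ?_, ?_⟩
      · rw [last_it D.ne (hlt _), ← it_succ', it_succ, it_succ]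
        refine last_app D.ne ?_
        rw [← h1, last_it D.ne (hlt _)]
      · rw [head_it D.ne (hht _), ← it_succ', it_succ, it_succ]
        refine head_app D.ne ?_
        rw [← h2, head_it D.ne (hht _)]
  have hdl : ∀ x y : List α, x ≠ [] → y ≠ [] →
      dl (fun a b => O (some a) (some b)) x.getLast? y.head? =
        if O x.getLast? y.head? then 1 else 0 := by
    intro x y hx hy
    rcases List.eq_nil_or_concat x with rfl | ⟨x, c, rfl⟩
    · exact absurd rfl hx
    · cases y with
      | nil => exact absurd rfl hy
      | cons d y =>
        have h1 : (x.concat c).getLast? = some c := by simp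
        rw [h1, List.head?_cons, dl_some]
  by_contra hc
  have hcR : cj (fun i j => O (f i).getLast? (f j).head?) R = 0 := by
    by_contra hcR
    obtain ⟨i, j, hij, h1⟩ := exists_of_cj hcR
    rw [hO] at h1
    obtain ⟨p, q, h1, h2⟩ := h1
    rw [last_it D.ne (hlt _)] at h1
    rw [head_it D.ne (hht _)] at h2
    exact hc ⟨i, j, p, q, hij, h1, h2⟩
  have h1 := D.no_type (O := fun a b => O (some a) (some b)) ?_ ?_ hcR k
  · refine not_of_cj h1 hab ((hO _ _).2 ⟨0, 0, rfl, rfl⟩)
  · intro c d
    rw [hdl _ _ (D.ne c) (D.ne d), dl_some]
    have h2 := hinv [c] [d]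
    rw [app_singleton, app_singleton] at h2
    have h3 : O [c].getLast? [d].head? ↔ O (some c) (some d) := Iff.rfl
    simp only [h2, h3]
  · intro i j
    rw [hdl _ _ (D.fne i) (D.fne j), dl_some]

end D0L.Nif
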