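import Pool.Agent.H.MP_374efc_lc.Nif.A

/-!
# MP_374efc_lc: all token words whose spelling is legal become legal

`tau R` is the token morphism `x_i ↦ x_(i+1)`, `x_(N-1) ↦ R`.  `first_agree` and `last_agree`: long initial (final) parts of
the images of a token under a large power depend only on its class mod `e` (mod `e'`) if `R` begins with `x_(N-e)` (ends with
`x_(N-e')`).  `short_legal`: if the spelling of a token word is a factor of a word of the system, then all short
factors of its images under large powers are factors of images of tokens.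
-/

set_option autoImplicit false

namespace D0L.Nif

variable {N : ℕ}

/-- The token morphism. -/
def tau (R : List (Fin N)) (i : Fin N) : List (Fin N) :=
  if h : (i : ℕ) + 1 < N then [⟨i + 1, h⟩] else R

theorem tau_lt {R : List (Fin N)} {i j : Fin N} (h : (i : ℕ) + 1 = j) : tau R i = [j] := by
  rw [tau, dif_pos (by omega)]
  congr 1
  exact Fin.ext h

theorem tau_last {R : List (Fin N)} {i : Fin N} (h : (i : ℕ) + 1 = N) : tau R i = R := by
  rw [tau, dif_neg (by omega)]

theorem tau_ne {R : List (Fin N)} (hR : R ≠ []) (i : Fin N) : tau R i ≠ [] := by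
  unfold tau
  split
  · simp
  · exact hR

/-- Moving a token up. -/
theorem it_tau_up {R : List (Fin N)} {m : ℕ} {i j : Fin N} (h : (i : ℕ) + m = j) :
    it (tau R) m [i] = [j] := by
  induction m generalizing j with
  | zero =>
    have h1 : i = j := Fin.ext (by omega)
    rw [h1]
    rfl
  | succ m ih =>
    have h1 : (i : ℕ) + m < N := by omega
    rw [it_succ, ih (j := ⟨i + m, h1⟩) rfl, app_singleton, tau_lt (j := j) (by simp only; omega)]

theorem it_pre {α : Type} {h : α → List α} {x y : List α} (k : ℕ) (hxy : x <+: y) :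
    it h k x <+: it h k y := by
  obtain ⟨z, rfl⟩ := hxy
  rw [it_append]
  exact List.prefix_append _ _

theorem it_suf {α : Type} {h : α → List α} {x y : List α} (k : ℕ) (hxy : x <:+ y) :
    it h k x <:+ it h k y := by
  obtain ⟨z, rfl⟩ := hxy
  rw [it_append]
  exact List.suffix_append _ _

theorem it_inf {α : Type} {h : α → List α} {x y : List α} (k : ℕ) (hxy : x <:+: y) :
    it h k x <:+: it h k y := by
  obtain ⟨z, z', rfl⟩ := hxy
  rw [it_append, it_append]
  exact ⟨_, _, rfl⟩

theorem len_it_mono {α : Type} {h : α → List α} (hne : ∀ a, h a ≠ []) (x : List α) {k k' : ℕ}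
    (hk : k ≤ k') : (it h k x).length ≤ (it h k' x).length := by
  induction k', hk using Nat.le_induction with
  | base => exact le_rfl
  | succ k' _ ih => rw [it_succ]; exact ih.trans (length_le_app hne _)

/-- The images of the tokens grow. -/
theorem len_grow {R : List (Fin N)} (hR : 2 ≤ R.length) (B : ℕ) :
    ∃ m0, ∀ m, m0 ≤ m → ∀ x : List (Fin N), x ≠ [] → B ≤ (it (tau R) m x).length := by
  have hR0 : R ≠ [] := by
    rintro rfl
    simp at hR
  have hne := tau_ne (R := R) hR0
  have h1 : ∀ i : Fin N, 2 ≤ (it (tau R) N [i]).length := by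
    intro i
    have h0 : N - 1 < N := Nat.sub_lt (Fin.pos i) one_pos
    have h2 := it_tau_up (R := R) (m := N - 1 - i) (i := i) (j := ⟨N - 1, h0⟩)
      (by simp only; omega)
    have h3 : it (tau R) (1 + (N - 1 - i)) [i] = R := by
      rw [it_add, h2, it_one, app_singleton, tau_last (by simp only; omega)]
    have h5 := len_it_mono hne [i] (k := 1 + (N - 1 - i)) (k' := N) (by omega)
    rw [h3] at h5
    omega
  have h2 : ∀ x : List (Fin N), 2 * x.length ≤ (it (tau R) N x).length := by
    intro x
    induction x with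
    | nil => simp [it_nil]
    | cons i x ih =>
      have h3 : it (tau R) N (i :: x) = it (tau R) N [i] ++ it (tau R) N x := by
        rw [← it_append]
        rfl
      rw [h3, List.length_append, List.length_cons]
      have := h1 i
      omega
  have h3 : ∀ B : ℕ, ∀ x : List (Fin N), x ≠ [] → B ≤ (it (tau R) (B * N) x).length := by
    intro B
    induction B with
    | zero => intro x _; omega
    | succ B ih =>
      intro x hx
      have h4 := ih x hx
      have h5 := h2 (it (tau R) (B * N) x)
      rw [← it_add] at h5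
      have h6 : (B + 1) * N = N + B * N := by ring
      rw [h6]
      have h7 : 0 < (it (tau R) (B * N) x).length := by
        have h8 := len_it_mono hne x (Nat.zero_le (B * N))
        have h9 := List.length_pos_of_ne_nil hx
        rw [it_zero] at h8
        omega
      omega
  exact ⟨B * N, fun m hm x hx => (h3 B x hx).trans (len_it_mono hne x hm)⟩

/-- The images of a token after it has passed the last index. -/
theorem it_tau_top {R : List (Fin N)} {i z : Fin N} {m : ℕ} (hz : (z : ℕ) + 1 = N) (hm : N ≤ m) :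
    it (tau R) m [i] = it (tau R) (i + m - z) [z] := by
  have h1 : m = (i + m - z) + (z - i) := by omega
  conv_lhs => rw [h1]
  rw [it_add, it_tau_up (R := R) (m := z - i) (i := i) (j := z) (by omega)]

theorem first_chain {R : List (Fin N)} {e : ℕ} {z u : Fin N} (he : 0 < e) (hz : (z : ℕ) + 1 = N)
    (hu : (u : ℕ) + e = N) (hf : R.head? = some u) (c m : ℕ) :
    it (tau R) m [z] <+: it (tau R) (m + c * e) [z] := by
  have h1 : [z] <+: it (tau R) e [z] := by
    obtain ⟨R', hR'⟩ : ∃ R', R = [u] ++ R' := by
      cases R with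
      | nil => simp at hf
      | cons a R' =>
        rw [List.head?_cons, Option.some.injEq] at hf
        exact ⟨R', by rw [hf]; rfl⟩
    obtain ⟨e', rfl⟩ : ∃ e', e = e' + 1 := ⟨e - 1, by omega⟩
    rw [it_succ', app_singleton, tau_last hz]
    have h4 : it (tau R) e' [u] = [z] := it_tau_up (by omega)
    have h5 : it (tau R) e' R = [z] ++ it (tau R) e' R' := by
      rw [← h4, ← it_append, ← hR']
    rw [h5]
    exact List.prefix_append _ _
  induction c with
  | zero => rw [Nat.zero_mul, Nat.add_zero]
  | succ c ih =>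
    refine ih.trans ?_
    have h2 : m + (c + 1) * e = (m + c * e) + e := by ring
    rw [h2, it_add (tau R) (m + c * e) e]
    exact it_pre _ h1

theorem last_chain {R : List (Fin N)} {e : ℕ} {z u : Fin N} (he : 0 < e) (hz : (z : ℕ) + 1 = N)
    (hu : (u : ℕ) + e = N) (hf : R.getLast? = some u) (c m : ℕ) :
    it (tau R) m [z] <:+ it (tau R) (m + c * e) [z] := by
  have h1 : [z] <:+ it (tau R) e [z] := by
    obtain ⟨R', hR'⟩ : ∃ R', R = R' ++ [u] := by
      rcases List.eq_nil_or_concat R with h | ⟨R', a, h⟩
      · rw [h] at hf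
        simp at hf
      · rw [h, List.concat_eq_append] at hf
        simp only [List.getLast?_append, List.getLast?_singleton, Option.some_or,
          Option.some.injEq] at hf
        exact ⟨R', by rw [h, List.concat_eq_append, hf]⟩
    obtain ⟨e', rfl⟩ : ∃ e', e = e' + 1 := ⟨e - 1, by omega⟩
    rw [it_succ', app_singleton, tau_last hz]
    have h4 : it (tau R) e' [u] = [z] := it_tau_up (by omega)
    have h5 : it (tau R) e' R = it (tau R) e' R' ++ [z] := by
      rw [← h4, ← it_append, ← hR']
    rw [h5]
    exact List.suffix_append _ _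
  induction c with
  | zero => rw [Nat.zero_mul, Nat.add_zero]
  | succ c ih =>
    refine ih.trans ?_
    have h2 : m + (c + 1) * e = (m + c * e) + e := by ring
    rw [h2, it_add (tau R) (m + c * e) e]
    exact it_suf _ h1

/-- The first tokens of large images depend only on the class. -/
theorem first_agree {R : List (Fin N)} {e : ℕ} {z u : Fin N} (he : 0 < e)
    (hz : (z : ℕ) + 1 = N) (hu : (u : ℕ) + e = N) (hf : R.head? = some u) (hR : 2 ≤ R.length)
    (B : ℕ) : ∃ m0, ∀ (i j : Fin N) (m m' : ℕ), m0 ≤ m → m0 ≤ m' →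
      (e : ℤ) ∣ ((i : ℕ) + m : ℕ) - ((j : ℕ) + m' : ℕ) →
      ∃ s, B ≤ s.length ∧ s <+: it (tau R) m [i] ∧ s <+: it (tau R) m' [j] := by
  obtain ⟨m0, hm0⟩ := len_grow hR B
  refine ⟨m0 + N + N, fun i j m m' hm hm' hd => ?_⟩
  have key : ∀ (i j : Fin N) (m m' : ℕ), m0 + N + N ≤ m → m0 + N + N ≤ m' →
      (e : ℤ) ∣ ((i : ℕ) + m : ℕ) - ((j : ℕ) + m' : ℕ) → (j : ℕ) + m' ≤ (i : ℕ) + m →
      ∃ s, B ≤ s.length ∧ s <+: it (tau R) m [i] ∧ s <+: it (tau R) m' [j] := by
    intro i j m m' hm hm' hd hle
    obtain ⟨c, hc⟩ := hd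
    have hc0 : 0 ≤ c := by
      by_contra hc1
      have h1 : (e : ℤ) * c < 0 := mul_neg_of_pos_of_neg (by exact_mod_cast he) (by omega)
      omega
    obtain ⟨d, rfl⟩ := Int.eq_ofNat_of_zero_le hc0
    have h2 : (i : ℕ) + m = (j : ℕ) + m' + d * e := by
      have h3 : (((i : ℕ) + m : ℕ) : ℤ) = (((j : ℕ) + m' + d * e : ℕ) : ℤ) := by
        push_cast at hc ⊢
        linarith
      exact_mod_cast h3
    refine ⟨it (tau R) m' [j], hm0 m' (by omega) _ (by simp), ?_, List.prefix_rfl⟩
    rw [it_tau_top hz (m := m') (by omega), it_tau_top hz (m := m) (by omega)]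
    have h4 : (i : ℕ) + m - z = ((j : ℕ) + m' - z) + d * e := by omega
    rw [h4]
    exact first_chain he hz hu hf d _
  rcases le_total ((j : ℕ) + m') ((i : ℕ) + m) with h | h
  · exact key i j m m' hm hm' hd h
  · obtain ⟨s, h1, h2, h3⟩ := key j i m' m hm' hm (by rw [← dvd_neg, neg_sub]; exact hd) h
    exact ⟨s, h1, h3, h2⟩

/-- The last tokens of large images depend only on the class. -/
theorem last_agree {R : List (Fin N)} {e : ℕ} {z u : Fin N} (he : 0 < e)
    (hz : (z : ℕ) + 1 = N) (hu : (u : ℕ) + e = N) (hf : R.getLast? = some u) (hR : 2 ≤ R.length)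
    (B : ℕ) : ∃ m0, ∀ (i j : Fin N) (m m' : ℕ), m0 ≤ m → m0 ≤ m' →
      (e : ℤ) ∣ ((i : ℕ) + m : ℕ) - ((j : ℕ) + m' : ℕ) →
      ∃ s, B ≤ s.length ∧ s <:+ it (tau R) m [i] ∧ s <:+ it (tau R) m' [j] := by
  obtain ⟨m0, hm0⟩ := len_grow hR B
  refine ⟨m0 + N + N, fun i j m m' hm hm' hd => ?_⟩
  have key : ∀ (i j : Fin N) (m m' : ℕ), m0 + N + N ≤ m → m0 + N + N ≤ m' →
      (e : ℤ) ∣ ((i : ℕ) + m : ℕ) - ((j : ℕ) + m' : ℕ) → (j : ℕ) + m' ≤ (i : ℕ) + m →
      ∃ s, B ≤ s.length ∧ s <:+ it (tau R) m [i] ∧ s <:+ it (tau R) m' [j] := by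
    intro i j m m' hm hm' hd hle
    obtain ⟨c, hc⟩ := hd
    have hc0 : 0 ≤ c := by
      by_contra hc1
      have h1 : (e : ℤ) * c < 0 := mul_neg_of_pos_of_neg (by exact_mod_cast he) (by omega)
      omega
    obtain ⟨d, rfl⟩ := Int.eq_ofNat_of_zero_le hc0
    have h2 : (i : ℕ) + m = (j : ℕ) + m' + d * e := by
      have h3 : (((i : ℕ) + m : ℕ) : ℤ) = (((j : ℕ) + m' + d * e : ℕ) : ℤ) := by
        push_cast at hc ⊢
        linarith
      exact_mod_cast h3
    refine ⟨it (tau R) m' [j], hm0 m' (by omega) _ (by simp), ?_, List.suffix_rfl⟩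
    rw [it_tau_top hz (m := m') (by omega), it_tau_top hz (m := m) (by omega)]
    have h4 : (i : ℕ) + m - z = ((j : ℕ) + m' - z) + d * e := by omega
    rw [h4]
    exact last_chain he hz hu hf d _
  rcases le_total ((j : ℕ) + m') ((i : ℕ) + m) with h | h
  · exact key i j m m' hm hm' hd h
  · obtain ⟨s, h1, h2, h3⟩ := key j i m' m hm' hm (by rw [← dvd_neg, neg_sub]; exact hd) h
    exact ⟨s, h1, h3, h2⟩

/-! ### Short factors -/

/-- A short factor of a product of three words lies in the product of two consecutive ones. -/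
theorem short_three {α : Type} {z A B C : List α} (h : z <:+: A ++ (B ++ C))
    (hz : z.length ≤ B.length) : z <:+: A ++ B ∨ z <:+: B ++ C := by
  obtain ⟨u, v, huv⟩ := h
  by_cases hu : A.length ≤ u.length
  · right
    have h1 : A <+: u := by
      refine List.prefix_of_prefix_length_le (l₃ := u ++ z ++ v) ?_ ?_ hu
      · rw [huv]
        exact List.prefix_append _ _
      · rw [List.append_assoc]
        exact List.prefix_append _ _
    obtain ⟨u', rfl⟩ := h1
    rw [List.append_assoc, List.append_assoc, List.append_cancel_left_eq] at huv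
    exact ⟨u', v, by rw [← huv, List.append_assoc]⟩
  · left
    have h1 : u ++ z <+: A ++ B := by
      refine List.prefix_of_prefix_length_le (l₃ := u ++ z ++ v) (List.prefix_append _ _) ?_ ?_
      · rw [huv, ← List.append_assoc]
        exact List.prefix_append _ _
      · rw [List.length_append, List.length_append]
        omega
    obtain ⟨w, hw⟩ := h1
    exact ⟨u, w, hw⟩

/-- A short factor of an image lies in the image of one token or of two adjacent tokens. -/
theorem short_blocks {α β : Type} {g : β → List α} {z : List α} {y : List β}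
    (hg : ∀ b ∈ y, z.length ≤ (g b).length) (hz : z <:+: app g y) :
    z = [] ∨ (∃ b ∈ y, z <:+: g b) ∨ ∃ b c, [b, c] <:+: y ∧ z <:+: g b ++ g c := by
  induction y with
  | nil =>
    left
    rw [app_nil] at hz
    exact List.infix_nil.1 hz
  | cons a y ih =>
    cases y with
    | nil =>
      right
      left
      rw [app_singleton] at hz
      exact ⟨a, by simp, hz⟩
    | cons b y =>
      rw [app_cons, app_cons] at hz
      rcases short_three hz (hg b (by simp)) with h | h
      · right
        right
        exact ⟨a, b, ⟨[], y, by simp⟩, h⟩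
      · rw [← app_cons] at h
        rcases ih (fun c hc => hg c (List.mem_cons_of_mem _ hc)) h with h1 | ⟨c, hc, h1⟩ |
          ⟨c, d, hcd, h1⟩
        · exact Or.inl h1
        · exact Or.inr (Or.inl ⟨c, List.mem_cons_of_mem _ hc, h1⟩)
        · refine Or.inr (Or.inr ⟨c, d, ?_, h1⟩)
          obtain ⟨s, t, hst⟩ := hcd
          exact ⟨a :: s, t, by rw [← hst]; simp⟩

/-- Legal token words: the factors of the images of the tokens. -/
def TLeg (R : List (Fin N)) (x : List (Fin N)) : Prop := ∃ m i, x <:+: it (tau R) m [i]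

theorem TLeg.inf {R x y : List (Fin N)} (h : TLeg R y) (hx : x <:+: y) : TLeg R x := by
  obtain ⟨m, i, hy⟩ := h
  exact ⟨m, i, hx.trans hy⟩

end D0L.Nif
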