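import Pool.Agent.H.MP_374efc_lc.Nif.B

/-!
# MP_374efc_lc: no fork, then the words of the system are a code

`Frm` collects the data of a formula `R` with first token `x_(N-e)` and last token `x_(N-e')`.  `short_legal`: if the
spelling of a token word has only legal pairs of adjacent letters, all short factors of its images under large powers
are legal token words.  `code_of_noFork`: if there is no fork of legal token words, then the words `w_0, .., w_(N-1)` are
a code.
-/

set_option autoImplicit false

namespace D0L.Nif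

variable {n N : ℕ}

/-- The token words. -/
def wd (H : Fin n → List (Fin n)) (b0 : List (Fin n)) (i : Fin N) : List (Fin n) := it H i b0

/-- A formula `R` with first token `x_(N-e)` and last token `x_(N-e')`, classes mod `e` of the first letters and mod `e'` of
the last letters of the words, and products of words which are images of the letters. -/
structure Frm (H : Fin n → List (Fin n)) (b0 : List (Fin n)) (K : ℕ) (R : List (Fin N))
    (P : Fin n → List (Fin N)) (e e' j0 : ℕ) (z u u' : Fin N) : Prop where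
  dat : Dat H (wd H b0 : Fin N → List (Fin n)) b0 N K R P
  pos : 0 < e
  pos' : 0 < e'
  cls : ∀ k k', j0 ≤ k → j0 ≤ k' → (it H k b0).head? = (it H k' b0).head? → (e : ℤ) ∣ k - k'
  cls' : ∀ k k', j0 ≤ k → j0 ≤ k' → (it H k b0).getLast? = (it H k' b0).getLast? →
    (e' : ℤ) ∣ k - k'
  top : (z : ℕ) + 1 = N
  eu : (u : ℕ) + e = N
  eu' : (u' : ℕ) + e' = N
  head : R.head? = some u
  last : R.getLast? = some u'

variable {H : Fin n → List (Fin n)} {b0 : List (Fin n)} {K : ℕ} {R : List (Fin N)}
  {P : Fin n → List (Fin N)} {e e' j0 : ℕ} {z u u' : Fin N}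

theorem Frm.cls2 (F : Frm H b0 K R P e e' j0 z u u') {k k' : ℕ}
    (h : (it H k b0).head? = (it H k' b0).head?) : (e : ℤ) ∣ k - k' := by
  have h1 := head_it F.dat.ne h j0
  rw [← it_add, ← it_add] at h1
  have h2 := F.cls _ _ (by omega) (by omega) h1
  push_cast at h2
  rwa [add_sub_add_left_eq_sub] at h2

theorem Frm.cls2' (F : Frm H b0 K R P e e' j0 z u u') {k k' : ℕ}
    (h : (it H k b0).getLast? = (it H k' b0).getLast?) : (e' : ℤ) ∣ k - k' := by
  have h1 := last_it F.dat.ne h j0
  rw [← it_add, ← it_add] at h1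
  have h2 := F.cls' _ _ (by omega) (by omega) h1
  push_cast at h2
  rwa [add_sub_add_left_eq_sub] at h2

theorem Frm.spell (F : Frm H b0 K R P e e' j0 z u u') (x : List (Fin N)) :
    app (wd H b0) (app (tau R) x) = app H (app (wd H b0) x) := by
  have h1 : ∀ i : Fin N, app (wd H b0) (tau R i) = app H (wd H b0 i) := by
    intro i
    by_cases hi : (i : ℕ) + 1 < N
    · rw [tau_lt (j := ⟨i + 1, hi⟩) rfl, app_singleton]
      exact it_succ _ _ _
    · have h2 : (i : ℕ) + 1 = N := by omega
      rw [tau_last h2, F.dat.rel]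
      have h3 : N = (i : ℕ) + 1 := h2.symm
      have h4 : it H N b0 = it H ((i : ℕ) + 1) b0 := congrArg (fun k => it H k b0) h3
      rw [h4]
      exact it_succ _ _ _
  induction x with
  | nil => rfl
  | cons i x ih => rw [app_cons, app_append, ih, app_cons, app_append, h1]

theorem Frm.spell_it (F : Frm H b0 K R P e e' j0 z u u') (m : ℕ) (x : List (Fin N)) :
    app (wd H b0) (it (tau R) m x) = it H m (app (wd H b0) x) := by
  induction m with
  | zero => rfl
  | succ m ih => rw [it_succ, F.spell, ih, it_succ]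

theorem Frm.spell_P (F : Frm H b0 K R P e e' j0 z u u') (x : List (Fin n)) :
    app (wd H b0) (app P x) = it H K x := by
  induction x with
  | nil => rw [app_nil, app_nil, it_nil]
  | cons a x ih =>
    rw [app_cons, app_append, ih, F.dat.tk, ← it_append]
    rfl

/-- Junctions of two tokens whose spelling is legal become legal. -/
theorem Frm.pair_legal (F : Frm H b0 K R P e e' j0 z u u') {p q : Fin N} {a b : Fin n} {k : ℕ}
    (hp : (wd H b0 p).getLast? = some a) (hq : (wd H b0 q).head? = some b)
    (hab : [a, b] <:+: it H k b0) (B : ℕ) :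
    ∃ m1, ∀ m, m1 ≤ m → ∀ x, x <:+: it (tau R) m [p] ++ it (tau R) m [q] → x.length ≤ B →
      TLeg R x := by
  obtain ⟨i, j, p', q', hij, h1, h2⟩ := F.dat.type_occurs hab
  have hp' : [a].getLast? = (wd H b0 p).getLast? := by rw [hp]; rfl
  have hq' : [b].head? = (wd H b0 q).head? := by rw [hq]; rfl
  rw [last_it F.dat.ne hp'] at h1
  rw [head_it F.dat.ne hq'] at h2
  have h3 : (e' : ℤ) ∣ ((p' + i : ℕ) : ℤ) - ((q' + p : ℕ) : ℤ) := by
    apply F.cls2'
    rw [it_add, it_add]
    exact h1
  have h4 : (e : ℤ) ∣ ((p' + j : ℕ) : ℤ) - ((q' + q : ℕ) : ℤ) := by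
    apply F.cls2
    rw [it_add, it_add]
    exact h2
  obtain ⟨m0, hm0⟩ := first_agree F.pos F.top F.eu F.head F.dat.two B
  obtain ⟨m0', hm0'⟩ := last_agree F.pos' F.top F.eu' F.last F.dat.two B
  refine ⟨m0 + m0' + q', fun m hm x hx hB => ?_⟩
  obtain ⟨m'', hm''⟩ : ∃ m'', m'' = m - q' + p' := ⟨_, rfl⟩
  have h5 : (m'' : ℤ) = m - q' + p' := by
    rw [hm'']
    push_cast [Nat.cast_sub (show q' ≤ m by omega)]
    ring
  obtain ⟨s2, hs2, h6, h7⟩ := hm0 q j m m'' (by omega) (by omega) (by
    have h8 : (((q : ℕ) + m : ℕ) : ℤ) - (((j : ℕ) + m'' : ℕ) : ℤ) =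
        -(((p' + j : ℕ) : ℤ) - ((q' + q : ℕ) : ℤ)) := by
      push_cast
      rw [h5]
      ring
    rw [h8, dvd_neg]
    exact h4)
  obtain ⟨s1, hs1, h8, h9⟩ := hm0' p i m m'' (by omega) (by omega) (by
    have h8 : (((p : ℕ) + m : ℕ) : ℤ) - (((i : ℕ) + m'' : ℕ) : ℤ) =
        -(((p' + i : ℕ) : ℤ) - ((q' + p : ℕ) : ℤ)) := by
      push_cast
      rw [h5]
      ring
    rw [h8, dvd_neg]
    exact h3)
  obtain ⟨b1, hb1⟩ := h6
  obtain ⟨a1, ha1⟩ := h8
  rw [← ha1, ← hb1, List.append_assoc] at hx
  rcases short_three hx (hB.trans hs1) with h10 | h10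
  · rw [ha1] at h10
    exact ⟨m, p, h10⟩
  · rcases short_three h10 (hB.trans hs2) with h11 | h11
    · refine ⟨m'' + 1, z, h11.trans ?_⟩
      rw [it_succ', app_singleton, tau_last F.top]
      refine List.IsInfix.trans ?_ (it_inf m'' hij)
      have h12 : it (tau R) m'' [i, j] = it (tau R) m'' [i] ++ it (tau R) m'' [j] := by
        rw [← it_append]
        rfl
      rw [h12]
      obtain ⟨c, hc⟩ := h9
      obtain ⟨d, hd⟩ := h7
      rw [← hc, ← hd]
      exact ⟨c, d, by simp⟩
    · rw [hb1] at h11
      exact ⟨m, q, h11⟩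

/-- **Token words whose spelling is legal become legal.** -/
theorem Frm.short_legal (F : Frm H b0 K R P e e' j0 z u u') {y : List (Fin N)}
    (hy : ∀ a b, [a, b] <:+: app (wd H b0) y → ∃ k, [a, b] <:+: it H k b0) (B : ℕ) :
    ∃ m1, ∀ m, m1 ≤ m → ∀ x, x <:+: it (tau R) m y → x.length ≤ B → TLeg R x := by
  classical
  have h1 : ∀ p q : Fin N, ∃ m1, [p, q] <:+: y → ∀ m, m1 ≤ m →
      ∀ x, x <:+: it (tau R) m [p] ++ it (tau R) m [q] → x.length ≤ B → TLeg R x := by
    intro p q
    by_cases hpq : [p, q] <:+: y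
    · obtain ⟨a, ha⟩ : ∃ a, (wd H b0 p).getLast? = some a := by
        rcases List.eq_nil_or_concat (wd H b0 p) with h | ⟨s, c, h⟩
        · exact absurd h (F.dat.fne p)
        · exact ⟨c, by rw [h]; simp⟩
      obtain ⟨b, hb⟩ : ∃ b, (wd H b0 q).head? = some b := by
        obtain ⟨c, s, h⟩ := List.exists_cons_of_ne_nil (F.dat.fne q)
        exact ⟨c, by rw [h]; rfl⟩
      have hab : [a, b] <:+: app (wd H b0) y := by
        obtain ⟨s, t, rfl⟩ := hpq
        obtain ⟨c, hc⟩ := List.getLast?_eq_some_iff.1 ha
        obtain ⟨d, hd⟩ : ∃ d, wd H b0 q = b :: d := by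
          cases h : wd H b0 q with
          | nil => rw [h] at hb; simp at hb
          | cons b' d =>
            rw [h, List.head?_cons, Option.some.injEq] at hb
            exact ⟨d, by rw [hb]⟩
        refine ⟨app (wd H b0) s ++ c, d ++ app (wd H b0) t, ?_⟩
        rw [app_append, app_append, app_cons, app_singleton, hc, hd]
        simp
      obtain ⟨k, hk⟩ := hy a b hab
      obtain ⟨m1, hm1⟩ := F.pair_legal ha hb hk B
      exact ⟨m1, fun _ => hm1⟩
    · exact ⟨0, fun h => absurd h hpq⟩
  choose g hg using h1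
  obtain ⟨m0, hm0⟩ := len_grow F.dat.two B
  refine ⟨m0 + ∑ p, ∑ q, g p q, fun m hm x hx hB => ?_⟩
  have h2 : ∀ p q, g p q ≤ m := by
    intro p q
    have h3 : g p q ≤ ∑ q, g p q := Finset.single_le_sum (f := fun q => g p q)
      (fun _ _ => Nat.zero_le _) (Finset.mem_univ q)
    have h4 : ∑ q, g p q ≤ ∑ p, ∑ q, g p q := Finset.single_le_sum (f := fun p => ∑ q, g p q)
      (fun _ _ => Nat.zero_le _) (Finset.mem_univ p)
    omega
  rw [it_eq_app] at hx
  rcases short_blocks (fun b _ => hB.trans (hm0 m (by omega) [b] (by simp))) hx with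
    h3 | ⟨b, -, h3⟩ | ⟨b, c, hbc, h3⟩
  · exact ⟨0, z, by rw [h3]; exact List.nil_infix⟩
  · exact ⟨m, b, h3⟩
  · exact hg b c hbc m (h2 b c) x h3 hB

/-- There is no fork of legal token words with common part and branches of `rho` tokens. -/
def NoFork (H : Fin n → List (Fin n)) (b0 : List (Fin n)) (R : List (Fin N)) (rho : ℕ) : Prop :=
  ∀ (g x y : List (Fin N)) (a b : Fin N), a ≠ b → rho ≤ g.length → rho ≤ x.length →
    rho ≤ y.length → TLeg R (g ++ a :: x) → TLeg R (g ++ b :: y) →
      ¬ app (wd H b0) (a :: x) <+: app (wd H b0) (b :: y)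

/-- Two lists agree, or one is an initial part of the other, or they branch. -/
theorem branch {α : Type} (x y : List α) : x <+: y ∨ y <+: x ∨
    ∃ g a b u v, a ≠ b ∧ x = g ++ a :: u ∧ y = g ++ b :: v := by
  induction x generalizing y with
  | nil => exact Or.inl List.nil_prefix
  | cons a x ih =>
    cases y with
    | nil => exact Or.inr (Or.inl List.nil_prefix)
    | cons b y =>
      by_cases hab : a = b
      · subst hab
        rcases ih y with ⟨t, rfl⟩ | ⟨t, rfl⟩ | ⟨g, c, d, u, v, h1, rfl, rfl⟩
        · exact Or.inl ⟨t, rfl⟩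
        · exact Or.inr (Or.inl ⟨t, rfl⟩)
        · exact Or.inr (Or.inr ⟨a :: g, c, d, u, v, h1, rfl, rfl⟩)
      · exact Or.inr (Or.inr ⟨[], a, b, x, y, hab, rfl, rfl⟩)

theorem app_len_eq {α β : Type} {f : β → List α} (hf : ∀ i, f i ≠ []) {x : List β}
    (h : (app f x).length = 0) : x = [] := by
  have h1 := length_le_app hf x
  exact List.length_eq_zero_iff.1 (by omega)

/-- Two token words with the same spelling, all short factors of which are legal, with long common initial
and final parts, are equal if there is no fork. -/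
theorem eq_of_noFork {rho : ℕ} (hf : ∀ i : Fin N, wd H b0 i ≠ []) (hno : NoFork H b0 R rho)
    {y1 y2 s s' : List (Fin N)} (hsp : app (wd H b0) y1 = app (wd H b0) y2)
    (hs : rho ≤ s.length) (h1 : s <+: y1) (h2 : s <+: y2) (hs' : rho ≤ s'.length)
    (h1' : s' <:+ y1) (h2' : s' <:+ y2)
    (hl1 : ∀ x, x <:+: y1 → x.length ≤ 2 * rho + 1 → TLeg R x)
    (hl2 : ∀ x, x <:+: y2 → x.length ≤ 2 * rho + 1 → TLeg R x) : y1 = y2 := by
  have hlen : ∀ {x z : List (Fin N)}, x <+: z → app (wd H b0) x = app (wd H b0) z → x = z := by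
    rintro x z ⟨t, rfl⟩ h
    rw [app_append] at h
    have h3 := congrArg List.length h
    rw [List.length_append] at h3
    have h4 := app_len_eq hf (x := t) (by omega)
    rw [h4, List.append_nil]
  rcases branch y1 y2 with h | h | ⟨g, a, b, x, y, hab, rfl, rfl⟩
  · exact hlen h hsp
  · exact (hlen h hsp.symm).symm
  exfalso
  have hg : rho ≤ g.length := by
    by_contra hlt
    push Not at hlt
    have h3 : g ++ [a] <+: s := by
      refine List.prefix_of_prefix_length_le ?_ h1 ?_
      · exact ⟨x, by simp⟩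
      · rw [List.length_append, List.length_singleton]
        omega
    have h4 : g ++ [b] <+: s := by
      refine List.prefix_of_prefix_length_le ?_ h2 ?_
      · exact ⟨y, by simp⟩
      · rw [List.length_append, List.length_singleton]
        omega
    have h5 : g ++ [a] = g ++ [b] := by
      refine List.IsPrefix.eq_of_length (List.prefix_of_prefix_length_le h3 h4 ?_) ?_
      · simp
      · simp
    simp only [List.append_cancel_left_eq, List.cons.injEq, and_true] at h5
    exact hab h5
  have hsp' : app (wd H b0) (a :: x) = app (wd H b0) (b :: y) := by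
    rw [app_append, app_append] at hsp
    exact List.append_cancel_left hsp
  -- the branches are long
  have key : ∀ {c d : Fin N} {x y : List (Fin N)}, c ≠ d → s' <:+ g ++ c :: x → s' <:+ g ++ d :: y →
      app (wd H b0) (c :: x) = app (wd H b0) (d :: y) → rho ≤ x.length := by
    intro c d x y hcd hc hd he
    by_contra hlt
    push Not at hlt
    have h3 : c :: x <:+ g ++ d :: y := by
      refine List.IsSuffix.trans ?_ hd
      refine List.suffix_of_suffix_length_le (List.suffix_append g (c :: x)) hc ?_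
      rw [List.length_cons]
      omega
    have h4 : ∀ {x z : List (Fin N)}, x <:+ z → app (wd H b0) x = app (wd H b0) z → x = z := by
      rintro x z ⟨t, rfl⟩ h
      rw [app_append] at h
      have h3 := congrArg List.length h
      rw [List.length_append] at h3
      have h4 := app_len_eq hf (x := t) (by omega)
      rw [h4, List.nil_append]
    have h5 : c :: x = d :: y := by
      rcases List.suffix_or_suffix_of_suffix h3 (List.suffix_append g (d :: y)) with h6 | h6
      · exact h4 h6 he
      · exact (h4 h6 he.symm).symm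
    exact hcd (List.cons.inj h5).1
  have hx := key hab h1' h2' hsp'
  have hy := key (Ne.symm hab) h2' h1' hsp'.symm
  -- short factors at the branch
  obtain ⟨g', hg', hgl⟩ : ∃ g', g' <:+ g ∧ g'.length = rho :=
    ⟨g.drop (g.length - rho), List.drop_suffix _ _, by rw [List.length_drop]; omega⟩
  obtain ⟨x', hx', hxl⟩ : ∃ x', x' <+: x ∧ x'.length = rho :=
    ⟨x.take rho, List.take_prefix _ _, by rw [List.length_take]; omega⟩
  obtain ⟨y', hy', hyl⟩ : ∃ y', y' <+: y ∧ y'.length = rho :=
    ⟨y.take rho, List.take_prefix _ _, by rw [List.length_take]; omega⟩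
  have hinf : ∀ {c : Fin N} {x x' : List (Fin N)}, x' <+: x → g' ++ c :: x' <:+: g ++ c :: x := by
    rintro c x x' ⟨t, rfl⟩
    obtain ⟨t', rfl⟩ := hg'
    exact ⟨t', t, by simp⟩
  have hL1 : TLeg R (g' ++ a :: x') := hl1 _ (hinf hx') (by
    rw [List.length_append, List.length_cons]
    omega)
  have hL2 : TLeg R (g' ++ b :: y') := hl2 _ (hinf hy') (by
    rw [List.length_append, List.length_cons]
    omega)
  have hpa : app (wd H b0) (a :: x') <+: app (wd H b0) (b :: y) := by
    rw [← hsp']
    obtain ⟨t, rfl⟩ := hx'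
    exact ⟨app (wd H b0) t, by rw [← app_append]; rfl⟩
  have hpb : app (wd H b0) (b :: y') <+: app (wd H b0) (b :: y) := by
    obtain ⟨t, rfl⟩ := hy'
    exact ⟨app (wd H b0) t, by rw [← app_append]; rfl⟩
  rcases List.prefix_or_prefix_of_prefix hpa hpb with h3 | h3
  · exact hno g' x' y' a b hab (by omega) (by omega) (by omega) hL1 hL2 h3
  · exact hno g' y' x' b a (Ne.symm hab) (by omega) (by omega) (by omega) hL2 hL1 h3

theorem app_ne {α β : Type} {f : β → List α} (hf : ∀ i, f i ≠ []) {x : List β} (hx : x ≠ []) :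
    app f x ≠ [] := by
  intro h
  exact hx (app_len_eq hf (by rw [h]; rfl))

/-- The images of a token and of the product of words with the same spelling agree. -/
theorem Frm.eq_tok (F : Frm H b0 K R P e e' j0 z u u') {rho : ℕ} (hno : NoFork H b0 R rho)
    (i : Fin N) : ∃ m1, ∀ m, m1 ≤ m →
      it (tau R) m (app P (wd H b0 i)) = it (tau R) (m + K) [i] := by
  have hsp : app (wd H b0) (app P (wd H b0 i)) = it H (K + i) b0 := by
    rw [F.spell_P, it_add]
    rfl
  have hne : app P (wd H b0 i) ≠ [] := by
    intro h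
    rw [h, app_nil] at hsp
    have h1 := len_it_mono F.dat.ne (wd H b0 i) (Nat.zero_le K)
    have h2 : it H K (wd H b0 i) = [] := by
      rw [hsp, it_add]
      rfl
    rw [h2, it_zero, List.length_nil] at h1
    exact F.dat.fne i (List.length_eq_zero_iff.1 (by omega))
  obtain ⟨m2, hm2⟩ := F.short_legal (y := app P (wd H b0 i))
    (fun a b hab => ⟨K + i, by rw [← hsp]; exact hab⟩) (2 * rho + 1)
  obtain ⟨m3, hm3⟩ := first_agree F.pos F.top F.eu F.head F.dat.two rho
  obtain ⟨m4, hm4⟩ := last_agree F.pos' F.top F.eu' F.last F.dat.two rho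
  refine ⟨m2 + m3 + m4, fun m hm => ?_⟩
  -- the common initial part
  obtain ⟨s, hs, hs1, hs2⟩ : ∃ s, rho ≤ s.length ∧ s <+: it (tau R) m (app P (wd H b0 i)) ∧
      s <+: it (tau R) (m + K) [i] := by
    obtain ⟨p, t, hp⟩ := List.exists_cons_of_ne_nil hne
    have h1 : (it H p b0).head? = (it H (K + i) b0).head? := by
      rw [← hsp, hp, app_cons]
      obtain ⟨c, r, hc⟩ := List.exists_cons_of_ne_nil (F.dat.fne p)
      rw [hc]
      have h2 : it H p b0 = c :: r := hc
      rw [h2]
      rfl
    have h2 := F.cls2 h1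
    obtain ⟨s, h3, h4, h5⟩ := hm3 p i m (m + K) (by omega) (by omega) (by
      have h6 : (((p : ℕ) + m : ℕ) : ℤ) - (((i : ℕ) + (m + K) : ℕ) : ℤ) =
          ((p : ℕ) : ℤ) - ((K + i : ℕ) : ℤ) := by
        push_cast
        ring
      rw [h6]
      exact h2)
    refine ⟨s, h3, h4.trans ?_, h5⟩
    rw [hp]
    exact it_pre m ⟨t, rfl⟩
  -- the common final part
  obtain ⟨s', hs', hs1', hs2'⟩ : ∃ s, rho ≤ s.length ∧ s <:+ it (tau R) m (app P (wd H b0 i)) ∧
      s <:+ it (tau R) (m + K) [i] := by
    obtain ⟨t, p, hp⟩ : ∃ t p, app P (wd H b0 i) = t ++ [p] := by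
      rcases List.eq_nil_or_concat (app P (wd H b0 i)) with h | ⟨t, p, h⟩
      · exact absurd h hne
      · exact ⟨t, p, by rw [h, List.concat_eq_append]⟩
    have h1 : (it H p b0).getLast? = (it H (K + i) b0).getLast? := by
      rw [← hsp, hp, app_append, app_singleton]
      rcases List.eq_nil_or_concat (wd H b0 p) with h | ⟨r, c, hc⟩
      · exact absurd h (F.dat.fne p)
      · rw [hc]
        have h2 : it H p b0 = r.concat c := hc
        rw [h2]
        simp [List.getLast?_append]
    have h2 := F.cls2' h1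
    obtain ⟨s, h3, h4, h5⟩ := hm4 p i m (m + K) (by omega) (by omega) (by
      have h6 : (((p : ℕ) + m : ℕ) : ℤ) - (((i : ℕ) + (m + K) : ℕ) : ℤ) =
          ((p : ℕ) : ℤ) - ((K + i : ℕ) : ℤ) := by
        push_cast
        ring
      rw [h6]
      exact h2)
    refine ⟨s, h3, h4.trans ?_, h5⟩
    rw [hp]
    exact it_suf m (List.suffix_append t [p])
  refine eq_of_noFork F.dat.fne hno ?_ hs hs1 hs2 hs' hs1' hs2' (hm2 m (by omega)) ?_
  · rw [F.spell_it, F.spell_it, F.spell_P, app_singleton, ← it_add]
  · intro x hx _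
    exact ⟨m + K, i, hx⟩

/-- The images of a token word depend only on the spelling. -/
theorem Frm.eq_all (F : Frm H b0 K R P e e' j0 z u u') {rho : ℕ} (hno : NoFork H b0 R rho) :
    ∃ m, ∀ x : List (Fin N),
      it (tau R) m (app P (app (wd H b0) x)) = it (tau R) (m + K) x := by
  choose g hg using fun i => F.eq_tok hno i
  refine ⟨∑ i, g i, fun x => ?_⟩
  induction x with
  | nil => rw [app_nil, app_nil, it_nil, it_nil]
  | cons i x ih =>
    have h1 := hg i (∑ i, g i) (Finset.single_le_sum (f := g) (fun _ _ => Nat.zero_le _)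
      (Finset.mem_univ i))
    rw [app_cons, app_append, it_append, ih, h1, ← it_append]
    rfl

theorem tau_inj {o : Fin N} (ho : (o : ℕ) = 0) (hoR : o ∈ R) :
    Function.Injective (app (tau R)) := by
  classical
  have hR0 : R ≠ [] := List.ne_nil_of_mem hoR
  have hlow : ∀ i : Fin N, (i : ℕ) + 1 ≠ N → ∃ j : Fin N, (i : ℕ) + 1 = j ∧ tau R i = [j] := by
    intro i hi
    have h1 : (i : ℕ) + 1 < N := by omega
    exact ⟨⟨i + 1, h1⟩, rfl, tau_lt rfl⟩
  -- the first zero
  have h0 : ∀ y : List (Fin N), o ∈ app (tau R) y → R.idxOf o ≤ (app (tau R) y).idxOf o := by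
    intro y
    induction y with
    | nil => intro h; rw [app_nil] at h; exact absurd h List.not_mem_nil
    | cons b y ih =>
      intro h
      by_cases hb : (b : ℕ) + 1 = N
      · rw [app_cons, tau_last hb, List.idxOf_append_of_mem hoR]
      · obtain ⟨j, hj, hj'⟩ := hlow b hb
        have hoj : j ≠ o := by
          intro h1
          rw [h1, ho] at hj
          omega
        rw [app_cons, hj', List.singleton_append] at h ⊢
        have h2 : o ∈ app (tau R) y := by
          rcases List.mem_cons.1 h with h3 | h3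
          · exact absurd h3.symm hoj
          · exact h3
        rw [List.idxOf_cons_ne _ hoj]
        exact (ih h2).trans (Nat.le_succ _)
  -- different first tokens
  have h1 : ∀ (a b : Fin N) (x y : List (Fin N)), (a : ℕ) + 1 = N → (b : ℕ) + 1 ≠ N →
      app (tau R) (a :: x) ≠ app (tau R) (b :: y) := by
    intro a b x y ha hb h
    obtain ⟨j, hj, hj'⟩ := hlow b hb
    have hoj : j ≠ o := by
      intro h1
      rw [h1, ho] at hj
      omega
    rw [app_cons, tau_last ha, app_cons, hj', List.singleton_append] at h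
    have h2 : o ∈ R ++ app (tau R) x := List.mem_append_left _ hoR
    have h3 : o ∈ app (tau R) y := by
      rw [h] at h2
      rcases List.mem_cons.1 h2 with h3 | h3
      · exact absurd h3.symm hoj
      · exact h3
    have h4 := congrArg (List.idxOf o) h
    rw [List.idxOf_append_of_mem hoR, List.idxOf_cons_ne _ hoj] at h4
    have h5 := h0 y h3
    omega
  intro x
  induction x with
  | nil =>
    intro y h
    rw [app_nil] at h
    exact (app_len_eq (tau_ne hR0) (by rw [← h]; rfl)).symm
  | cons a x ih =>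
    intro y h
    cases y with
    | nil =>
      exfalso
      have h2 := app_len_eq (tau_ne hR0) (x := a :: x) (by rw [h]; rfl)
      simp at h2
    | cons b y =>
      have hab : a = b := by
        by_cases ha : (a : ℕ) + 1 = N
        · by_cases hb : (b : ℕ) + 1 = N
          · exact Fin.ext (by omega)
          · exact absurd h (h1 a b x y ha hb)
        · by_cases hb : (b : ℕ) + 1 = N
          · exact absurd h.symm (h1 b a y x hb ha)
          · obtain ⟨j, hj, hj'⟩ := hlow a ha
            obtain ⟨k, hk, hk'⟩ := hlow b hb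
            rw [app_cons, app_cons, hj', hk', List.singleton_append, List.singleton_append,
              List.cons.injEq] at h
            apply Fin.ext
            have h3 : (j : ℕ) = k := by rw [h.1]
            omega
      subst hab
      rw [app_cons, app_cons] at h
      rw [ih (List.append_cancel_left h)]

theorem it_inj {α : Type} {h : α → List α} (hh : Function.Injective (app h)) (m : ℕ) :
    Function.Injective (it h m) := by
  induction m with
  | zero => exact fun _ _ h => h
  | succ m ih =>
    intro x y hxy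
    rw [it_succ, it_succ] at hxy
    exact ih (hh hxy)

/-- **No fork, then the words are a code.** -/
theorem Frm.code_of_noFork (F : Frm H b0 K R P e e' j0 z u u') {rho : ℕ}
    (hno : NoFork H b0 R rho) {o : Fin N} (ho : (o : ℕ) = 0) (hoR : o ∈ R) :
    Function.Injective (app (wd H b0 : Fin N → List (Fin n))) := by
  obtain ⟨m, hm⟩ := F.eq_all hno
  intro x y hxy
  have h1 := hm x
  rw [hxy, hm y] at h1
  exact (it_inj (tau_inj ho hoR) (m + K) h1).symm

end D0L.Nif
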